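import Mathlib

/-!
Project KS (statements of helper240): growth of polynomials against exponentials.
-/

set_option autoImplicit false

namespace Pool.Agent.Q278.KS

open Finset Filter Topology

theorem ev_poly (A : ℝ) (n : ℕ) {ε : ℝ} (hε : 0 < ε) :
    ∀ᶠ Y : ℝ in atTop, A * Y ^ n ≤ Real.exp (ε * Y) := by
  have h1 : Tendsto (fun Y : ℝ => (ε * Y) ^ n * Real.exp (-(ε * Y))) atTop (𝓝 0) :=
    (Real.tendsto_pow_mul_exp_neg_atTop_nhds_zero n).comp (tendsto_id.const_mul_atTop hε)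
  have h2 : (0:ℝ) < ε ^ n / (|A| + 1) := by positivity
  filter_upwards [h1.eventually (gt_mem_nhds h2), eventually_ge_atTop 0] with Y hY h0
  have h3 : (ε * Y) ^ n * Real.exp (-(ε * Y)) < ε ^ n / (|A| + 1) := hY
  rw [Real.exp_neg, ← div_eq_mul_inv, div_lt_div_iff₀ (Real.exp_pos _) (by positivity), mul_pow] at h3
  have h4 : Y ^ n * (|A| + 1) < Real.exp (ε * Y) := by
    have : ε ^ n * (Y ^ n * (|A| + 1)) < ε ^ n * Real.exp (ε * Y) := by linarith
    exact lt_of_mul_lt_mul_left this (by positivity)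
  have h5 : A * Y ^ n ≤ Y ^ n * (|A| + 1) := by
    have h6 : A ≤ |A| + 1 := by linarith [le_abs_self A]
    have h7 := mul_le_mul_of_nonneg_right h6 (pow_nonneg h0 n)
    linarith
  linarith

theorem ev_poly' (A : ℝ) (hA : 0 ≤ A) (n : ℕ) {ε : ℝ} (hε : 0 < ε) :
    ∀ᶠ Y : ℝ in atTop, A * (1 + 50 * Y) ^ n ≤ Real.exp (ε * Y) := by
  filter_upwards [ev_poly (A * 51 ^ n) n hε, eventually_ge_atTop 1] with Y hY h1
  refine le_trans ?_ hY
  rw [mul_assoc, ← mul_pow]
  have : 1 + 50 * Y ≤ 51 * Y := by linarith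
  gcongr

end Pool.Agent.Q278.KS
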