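import Pool.Agent.Q240.KS.Stm1
import Pool.Agent.Q240.KS.Stm2
import Pool.Agent.Q278.KS.Ev

/-!
Project KS (statements of helper240): job FAR, few frequencies with given sizes of the factors.
-/

set_option autoImplicit false

namespace Pool.Agent.Q278.KS

open Finset Filter Topology Pool.Agent.H376R2.MR Pool.Agent.Q240.KS

/-- comparison of exponents -/
theorem exp_cmp {Y a x ε C : ℝ} (hY : 0 < Y) (hC : C ≤ Real.exp (ε * Y))
    (h : Real.exp (-((a + ε) * Y)) ≤ C * Real.exp (x * Y)) : -x - 2 * ε ≤ a := by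
  have h1 : Real.exp (-((a + ε) * Y)) ≤ Real.exp ((ε + x) * Y) := by
    refine h.trans ?_
    rw [add_mul, Real.exp_add]
    exact mul_le_mul_of_nonneg_right hC (Real.exp_pos _).le
  have h2 := Real.exp_le_exp.1 h1
  have h3 : -(a + ε) * Y ≤ (ε + x) * Y := by linarith
  have h4 := le_of_mul_le_mul_right h3 hY
  linarith

theorem div_exp_neg (a x : ℝ) : a / Real.exp (-x) = a * Real.exp x := by
  rw [div_eq_mul_inv, ← Real.exp_neg, neg_neg]

/-- bound of the number of elements, mean value theorem -/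
theorem bndM {c C5 e ε' Y κ lam al d : ℝ} {m : ℕ} {K : ℝ} (hY : 0 < Y) (he : 0 < e) (hε' : 0 ≤ ε')
    (hε'e : ε' ≤ e / 200000) (hm : m ≤ 2000) (hd : d ≤ 40 * Y) (hal : d / 20 = al * Y)
    (hK0 : 0 ≤ K) (hK : K ≤ 3 * Real.exp (lam * Y)) (hC0 : 0 ≤ C5) (hC : C5 * 4 ≤ Real.exp (e / 10 * Y))
    (h : c ≤ C5 * Real.exp (e / 400 * d) * (1 + K * Real.exp (-(m * d / 20 : ℝ))) /
      Real.exp (-((κ + ε') * Y)) ^ (2 * m)) :
    c ≤ Real.exp ((max (2 * m * κ) (lam - m * al + 2 * m * κ) + e / 2) * Y) := by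
  have hm' : (m : ℝ) ≤ 2000 := by exact_mod_cast hm
  have hm0 : (0:ℝ) ≤ m := Nat.cast_nonneg m
  set M : ℝ := max (2 * m * κ) (lam - m * al + 2 * m * κ) with hM
  have e1 : Real.exp (-((κ + ε') * Y)) ^ (2 * m) = Real.exp (-(2 * m * (κ + ε') * Y)) := by
    rw [← Real.exp_nat_mul]; congr 1; push_cast; ring
  rw [e1, div_exp_neg] at h
  refine h.trans ?_
  have e2 : K * Real.exp (-(m * d / 20 : ℝ)) ≤ 3 * Real.exp ((lam - m * al) * Y) := by
    calc K * Real.exp (-(m * d / 20 : ℝ)) ≤ 3 * Real.exp (lam * Y) * Real.exp (-(m * d / 20 : ℝ)) := by gcongr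
      _ = 3 * Real.exp ((lam - m * al) * Y) := by
        rw [mul_assoc, ← Real.exp_add]; congr 2
        have : (m:ℝ) * d / 20 = m * (al * Y) := by rw [← hal]; ring
        rw [this]; ring
  have e3 : (1 + K * Real.exp (-(m * d / 20 : ℝ))) * Real.exp (2 * m * κ * Y) ≤ 4 * Real.exp (M * Y) := by
    have a1 : Real.exp (2 * m * κ * Y) ≤ Real.exp (M * Y) := by
      apply Real.exp_le_exp.2; exact mul_le_mul_of_nonneg_right (le_max_left _ _) hY.le
    have a2 : Real.exp ((lam - m * al) * Y) * Real.exp (2 * m * κ * Y) ≤ Real.exp (M * Y) := by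
      rw [← Real.exp_add]; apply Real.exp_le_exp.2
      have := mul_le_mul_of_nonneg_right (le_max_right (2 * m * κ) (lam - m * al + 2 * m * κ)) hY.le
      linarith
    calc (1 + K * Real.exp (-(m * d / 20 : ℝ))) * Real.exp (2 * m * κ * Y)
        ≤ (1 + 3 * Real.exp ((lam - m * al) * Y)) * Real.exp (2 * m * κ * Y) := by gcongr
      _ = Real.exp (2 * m * κ * Y) + 3 * (Real.exp ((lam - m * al) * Y) * Real.exp (2 * m * κ * Y)) := by ring
      _ ≤ Real.exp (M * Y) + 3 * Real.exp (M * Y) := by gcongr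
      _ = 4 * Real.exp (M * Y) := by ring
  have e4 : Real.exp (e / 400 * d) ≤ Real.exp (e / 10 * Y) := by
    apply Real.exp_le_exp.2; nlinarith
  have e5 : Real.exp (2 * m * ε' * Y) ≤ Real.exp (e / 10 * Y) := by
    apply Real.exp_le_exp.2
    have b1 : (m:ℝ) * ε' ≤ 2000 * (e / 200000) := by
      apply mul_le_mul hm' hε'e hε' (by norm_num)
    have b2 : 2 * m * ε' ≤ e / 10 := by linarith
    exact mul_le_mul_of_nonneg_right b2 hY.le
  have e6 : Real.exp (2 * m * (κ + ε') * Y) = Real.exp (2 * m * κ * Y) * Real.exp (2 * m * ε' * Y) := by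
    rw [← Real.exp_add]; congr 1; ring
  rw [e6]
  calc C5 * Real.exp (e / 400 * d) * (1 + K * Real.exp (-(m * d / 20 : ℝ))) *
        (Real.exp (2 * m * κ * Y) * Real.exp (2 * m * ε' * Y))
      = (C5 * Real.exp (e / 400 * d) * Real.exp (2 * m * ε' * Y)) *
        ((1 + K * Real.exp (-(m * d / 20 : ℝ))) * Real.exp (2 * m * κ * Y)) := by ring
    _ ≤ (C5 * Real.exp (e / 10 * Y) * Real.exp (e / 10 * Y)) * (4 * Real.exp (M * Y)) := by
        gcongr
    _ = (C5 * 4) * (Real.exp (e / 10 * Y) * Real.exp (e / 10 * Y) * Real.exp (M * Y)) := by ring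
    _ ≤ Real.exp (e / 10 * Y) * (Real.exp (e / 10 * Y) * Real.exp (e / 10 * Y) * Real.exp (M * Y)) := by gcongr
    _ = Real.exp ((M + 3 * (e / 10)) * Y) := by
        rw [← Real.exp_add, ← Real.exp_add, ← Real.exp_add]; congr 1; ring
    _ ≤ Real.exp ((M + e / 2) * Y) := by
        apply Real.exp_le_exp.2; apply mul_le_mul_of_nonneg_right _ hY.le; linarith

/-- bound of the number of elements, Huxley -/
theorem bndH {c C5 e ε' Y κ lam al d : ℝ} {m : ℕ} {K : ℝ} (hY : 0 < Y) (he : 0 < e) (hε' : 0 ≤ ε')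
    (hε'e : ε' ≤ e / 200000) (hm : m ≤ 2000) (hd : d ≤ 40 * Y) (hal : d / 20 = al * Y)
    (hK0 : 0 ≤ K) (hK : K ≤ 3 * Real.exp (lam * Y)) (hC0 : 0 ≤ C5) (hC : C5 * 4 ≤ Real.exp (e / 10 * Y))
    (h : c ≤ C5 * Real.exp (e / 400 * d) * (1 / Real.exp (-((κ + ε') * Y)) ^ (2 * m) +
      K * Real.exp (-(m * d / 10 : ℝ)) / Real.exp (-((κ + ε') * Y)) ^ (6 * m))) :
    c ≤ Real.exp ((max (2 * m * κ) (lam - 2 * m * al + 6 * m * κ) + e / 2) * Y) := by
  have hm' : (m : ℝ) ≤ 2000 := by exact_mod_cast hm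
  have hm0 : (0:ℝ) ≤ m := Nat.cast_nonneg m
  set M : ℝ := max (2 * m * κ) (lam - 2 * m * al + 6 * m * κ) with hM
  have e1 : Real.exp (-((κ + ε') * Y)) ^ (2 * m) = Real.exp (-(2 * m * (κ + ε') * Y)) := by
    rw [← Real.exp_nat_mul]; congr 1; push_cast; ring
  have e1' : Real.exp (-((κ + ε') * Y)) ^ (6 * m) = Real.exp (-(6 * m * (κ + ε') * Y)) := by
    rw [← Real.exp_nat_mul]; congr 1; push_cast; ring
  rw [e1, e1', div_exp_neg, div_exp_neg, one_mul] at h
  refine h.trans ?_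
  have e2 : K * Real.exp (-(m * d / 10 : ℝ)) ≤ 3 * Real.exp ((lam - 2 * m * al) * Y) := by
    calc K * Real.exp (-(m * d / 10 : ℝ)) ≤ 3 * Real.exp (lam * Y) * Real.exp (-(m * d / 10 : ℝ)) := by gcongr
      _ = 3 * Real.exp ((lam - 2 * m * al) * Y) := by
        rw [mul_assoc, ← Real.exp_add]; congr 2
        have : (m:ℝ) * d / 10 = 2 * m * (al * Y) := by rw [← hal]; ring
        rw [this]; ring
  have hme : (m:ℝ) * ε' ≤ 2000 * (e / 200000) := by
    apply mul_le_mul hm' hε'e hε' (by norm_num)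
  have a1 : Real.exp (2 * m * (κ + ε') * Y) ≤ Real.exp ((M + e / 10) * Y) := by
    apply Real.exp_le_exp.2; apply mul_le_mul_of_nonneg_right _ hY.le
    have := le_max_left (2 * m * κ) (lam - 2 * m * al + 6 * m * κ)
    nlinarith
  have a2 : K * Real.exp (-(m * d / 10 : ℝ)) * Real.exp (6 * m * (κ + ε') * Y) ≤
      3 * Real.exp ((M + e / 10) * Y) := by
    calc K * Real.exp (-(m * d / 10 : ℝ)) * Real.exp (6 * m * (κ + ε') * Y)
        ≤ 3 * Real.exp ((lam - 2 * m * al) * Y) * Real.exp (6 * m * (κ + ε') * Y) := by gcongr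
      _ = 3 * Real.exp ((lam - 2 * m * al + 6 * m * (κ + ε')) * Y) := by
        rw [mul_assoc, ← Real.exp_add]; congr 2; ring
      _ ≤ 3 * Real.exp ((M + e / 10) * Y) := by
        apply mul_le_mul_of_nonneg_left _ (by norm_num)
        apply Real.exp_le_exp.2; apply mul_le_mul_of_nonneg_right _ hY.le
        have := le_max_right (2 * m * κ) (lam - 2 * m * al + 6 * m * κ)
        nlinarith
  have e4 : Real.exp (e / 400 * d) ≤ Real.exp (e / 10 * Y) := by
    apply Real.exp_le_exp.2; nlinarith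
  calc C5 * Real.exp (e / 400 * d) * (Real.exp (2 * m * (κ + ε') * Y) +
        K * Real.exp (-(m * d / 10 : ℝ)) * Real.exp (6 * m * (κ + ε') * Y))
      ≤ C5 * Real.exp (e / 10 * Y) * (Real.exp ((M + e / 10) * Y) + 3 * Real.exp ((M + e / 10) * Y)) := by
        gcongr
    _ = (C5 * 4) * (Real.exp (e / 10 * Y) * Real.exp ((M + e / 10) * Y)) := by ring
    _ ≤ Real.exp (e / 10 * Y) * (Real.exp (e / 10 * Y) * Real.exp ((M + e / 10) * Y)) := by gcongr
    _ = Real.exp ((M + 3 * (e / 10)) * Y) := by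
        rw [← Real.exp_add, ← Real.exp_add]; congr 1; ring
    _ ≤ Real.exp ((M + e / 2) * Y) := by
        apply Real.exp_le_exp.2; apply mul_le_mul_of_nonneg_right _ hY.le; linarith

/-- an index with a long and large factor -/
theorem pick {Y kap : ℝ} {a κ : Fin 10 → ℝ} (hY : 1000 ≤ Y) (hκ : ∀ i, 0 ≤ κ i) (ha : ∀ i, 0 ≤ a i)
    (hk : kap = ∑ i, κ i) (hk0 : 0 < kap) (hs : 1 - 1 / Y ≤ ∑ i, a i) :
    ∃ i, 1 / 2000 ≤ a i ∧ κ i ≤ 1.0065 * kap * a i := by
  by_contra hcon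
  push Not at hcon
  have h1 : ∀ i, 1.0065 * kap * (a i - 1 / 2000) ≤ κ i := by
    intro i
    by_cases h : 1 / 2000 ≤ a i
    · have := hcon i h
      nlinarith
    · push Not at h
      have : 1.0065 * kap * (a i - 1 / 2000) ≤ 0 := by nlinarith
      linarith [hκ i]
  have h2 : ∑ i, 1.0065 * kap * (a i - 1 / 2000) ≤ kap := by
    rw [hk]; exact Finset.sum_le_sum fun i _ => by rw [← hk]; exact h1 i
  rw [← Finset.mul_sum, Finset.sum_sub_distrib] at h2
  simp only [Finset.sum_const, Finset.card_univ, Fintype.card_fin, nsmul_eq_mul] at h2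
  have h3 : 1 / Y ≤ 1 / 1000 := one_div_le_one_div_of_le (by norm_num) hY
  have h4 : (0.994 : ℝ) ≤ ∑ i, a i - ((10 : ℕ) : ℝ) * (1 / 2000) := by
    push_cast; linarith
  nlinarith

theorem DY_le {Y : ℝ} (hY : 1 ≤ Y) {d : Fin 10 → ℕ} (hd : d ∈ DY Y) (i : Fin 10) : (d i : ℝ) ≤ 20 * (Y + 1) := by
  unfold DY at hd
  rw [mem_filter, Fintype.mem_piFinset] at hd
  have h1 := hd.1 i
  rw [mem_range] at h1
  have h2 : d i ≤ ⌊20 * (Y + 1)⌋₊ := by omega
  exact (Nat.le_floor_iff (by positivity)).1 h2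

theorem DY_sum {Y : ℝ} {d : Fin 10 → ℕ} (hd : d ∈ DY Y) : |(∑ i, (d i : ℝ)) / 20 - Y| ≤ 1 := by
  unfold DY at hd
  rw [mem_filter] at hd
  exact hd.2

/-- the Moebius factors are short -/
theorem moe_short {Y : ℝ} (hY : 0 ≤ Y) {d : ℕ} {k : ℤ} (h : PF (zY Y) 0 d k ≠ 0) : (d : ℝ) < 4 * (Y + 2) + 1 := by
  unfold PF DP at h
  obtain ⟨n, hn, hne⟩ := Finset.exists_ne_zero_of_sum_ne_zero h
  have h1 : cf (zY Y) 0 d n ≠ 0 := by
    intro h0
    apply hne
    simp [h0]
  unfold cf at h1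
  simp only [if_true] at h1
  have h2 : n ≤ zY Y := by
    by_contra hc
    apply h1
    simp [hc]
  have h3 : w (20 * Real.log n - d) ≠ 0 := by
    intro h0
    apply h1
    rw [h0]; simp
  have h4 : |20 * Real.log n - d| < 1 := by
    by_contra hc
    push Not at hc
    apply h3
    unfold w
    rw [max_eq_left]
    linarith
  have h5 := (abs_lt.1 h4).1
  have hn1 : 1 ≤ n := by
    unfold sp at hn
    exact (mem_Icc.1 hn).1
  have h6 : Real.log n ≤ (Y + 2) / 5 := by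
    have h7 : (n : ℝ) ≤ Real.exp ((Y + 2) / 5) := by
      unfold zY at h2
      exact (Nat.le_floor_iff (Real.exp_pos _).le).1 h2
    have h8 : (0:ℝ) < n := by exact_mod_cast hn1
    calc Real.log n ≤ Real.log (Real.exp ((Y + 2) / 5)) := Real.log_le_log h8 h7
      _ = _ := Real.log_exp _
  linarith

theorem ty_small {i : Fin 10} (h : (i : ℕ) < 5) : ty i = 0 := by
  unfold ty; simp [h]

theorem ty_big {i : Fin 10} (h : ¬ (i : ℕ) < 5) : ty i ≠ 0 := by
  unfold ty; simp only [h, if_false]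
  split_ifs <;> decide

/-- the constants of a finite number of statements -/
theorem sup_const {P : ℕ → ℝ → Prop} (hP : ∀ m, ∀ x y : ℝ, x ≤ y → P m x → P m y)
    (h : ∀ m : ℕ, ∃ C : ℝ, 1 ≤ C ∧ P m C) (M : ℕ) : ∃ C : ℝ, 1 ≤ C ∧ ∀ m : ℕ, m ≤ M → P m C := by
  choose f hf using h
  refine ⟨1 + ∑ m ∈ range (M + 1), f m, ?_, ?_⟩
  · have : 0 ≤ ∑ m ∈ range (M + 1), f m := Finset.sum_nonneg fun m _ => by linarith [(hf m).1]
    linarith
  · intro m hm
    refine hP m (f m) _ ?_ (hf m).2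
    have := Finset.single_le_sum (f := f) (s := range (M + 1)) (fun m _ => by linarith [(hf m).1])
      (mem_range.2 (by omega : m < M + 1))
    linarith

theorem card_le {T₁ : ℝ} (hT : 1 ≤ T₁) {L : Finset ℤ} (hL : ∀ k ∈ L, T₁ ≤ |(k : ℝ)| ∧ |(k : ℝ)| < 2 * T₁) :
    (L.card : ℝ) ≤ 6 * T₁ := by
  have h1 : L ⊆ FK ⌈2 * T₁⌉₊ := by
    intro k hk
    have h2 := (hL k hk).2
    have h3 : |(k : ℝ)| < (⌈2 * T₁⌉₊ : ℝ) := lt_of_lt_of_le h2 (Nat.le_ceil _)
    unfold FK
    rw [mem_Ioo]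
    have h4 := abs_lt.1 h3
    constructor
    · exact_mod_cast h4.1
    · exact_mod_cast h4.2
  have h2 := Finset.card_le_card h1
  have h3 : (FK ⌈2 * T₁⌉₊).card ≤ 2 * ⌈2 * T₁⌉₊ := by
    unfold FK
    rw [Int.card_Ioo]
    omega
  have h4 : (L.card : ℝ) ≤ 2 * (⌈2 * T₁⌉₊ : ℝ) := by exact_mod_cast h2.trans h3
  have h5 : (⌈2 * T₁⌉₊ : ℝ) < 2 * T₁ + 1 := Nat.ceil_lt_add_one (by linarith)
  linarith

theorem far (h1 : S_SB1) (h2 : S_SB2) (h3 : S_SB3) (h4 : S_LVM) (h5 : S_LVH) : S_FAR := by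
  intro lam0 e0 hl0 hl1 hopt ε₃ ε₀ hε₃ hε₀ hε₀'
  set e : ℝ := ε₀ / 1000 with he
  have hepos : 0 < e := by positivity
  set ε' : ℝ := min (e / 200000) (ε₃ / 8) with hε'
  have hε'pos : 0 < ε' := lt_min (by positivity) (by positivity)
  have hε'e : ε' ≤ e / 200000 := min_le_left _ _
  have hε'3 : ε' ≤ ε₃ / 8 := min_le_right _ _
  set η : ℝ := min (e / 2) (ε₃ / 2) with hη
  have hηpos : 0 < η := lt_min (by positivity) (by positivity)
  have hηe : η ≤ e / 2 := min_le_left _ _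
  have hη3 : η ≤ ε₃ / 2 := min_le_right _ _
  obtain ⟨C1, hC1, H1⟩ := h1
  obtain ⟨C2, hC2, H2⟩ := h2
  obtain ⟨C3, hC3, H3⟩ := h3 (ε' / 40) (by positivity)
  obtain ⟨C4, hC4, H4⟩ := sup_const (P := fun m C => 1 ≤ m → ∀ (z : ℕ) (t : Fin 3) (d K : ℕ) (V : ℝ)
      (L : Finset ℤ), 1 ≤ K → 0 < V → (∀ k ∈ L, k ∈ FK K ∧ V ≤ ‖PF z t d k‖) →
      (L.card : ℝ) ≤ C * Real.exp (e / 400 * d) * (1 + K * Real.exp (-(m * d / 20 : ℝ))) / V ^ (2 * m))
    (by
      intro m x y hxy hx hm z t d K V L hK hV hL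
      refine (hx hm z t d K V L hK hV hL).trans ?_
      gcongr)
    (by
      intro m
      by_cases hm : 1 ≤ m
      · obtain ⟨C, hC, H⟩ := h4 m (e / 400) hm (by positivity)
        exact ⟨C, hC, fun _ => H⟩
      · exact ⟨1, le_refl _, fun h => absurd h hm⟩) 2000
  obtain ⟨C5, hC5, H5⟩ := sup_const (P := fun m C => 1 ≤ m → ∀ (z : ℕ) (t : Fin 3) (d K : ℕ) (V : ℝ)
      (L : Finset ℤ), 1 ≤ K → 0 < V → (∀ k ∈ L, k ∈ FK K ∧ V ≤ ‖PF z t d k‖) →
      (L.card : ℝ) ≤ C * Real.exp (e / 400 * d) * (1 / V ^ (2 * m) + K * Real.exp (-(m * d / 10 : ℝ)) / V ^ (6 * m)))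
    (by
      intro m x y hxy hx hm z t d K V L hK hV hL
      refine (hx hm z t d K V L hK hV hL).trans ?_
      gcongr)
    (by
      intro m
      by_cases hm : 1 ≤ m
      · obtain ⟨C, hC, H⟩ := h5 m (e / 400) hm (by positivity)
        exact ⟨C, hC, fun _ => H⟩
      · exact ⟨1, le_refl _, fun h => absurd h hm⟩) 2000
  have hev : ∀ᶠ Y : ℝ in atTop, 1000 ≤ Y ∧ 2 ≤ e * Y ∧ 2 * C1 * (1 + 50 * Y) ^ 1 ≤ Real.exp (ε' * Y) ∧
      10 * C2 * (1 + 50 * Y) ^ 2 ≤ Real.exp (ε' * Y) ∧ 3 * C3 * (1 + 50 * Y) ^ 0 ≤ Real.exp (ε' * Y) ∧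
      6 * (1 + 50 * Y) ^ 0 ≤ Real.exp (ε' * Y) ∧ C4 * 4 * (1 + 50 * Y) ^ 0 ≤ Real.exp (e / 10 * Y) ∧
      C5 * 4 * (1 + 50 * Y) ^ 0 ≤ Real.exp (e / 10 * Y) := by
    refine (eventually_ge_atTop 1000).and (((eventually_ge_atTop (2 / e)).mono ?_).and
      ((ev_poly' _ (by linarith) 1 hε'pos).and ((ev_poly' _ (by linarith) 2 hε'pos).and
      ((ev_poly' _ (by linarith) 0 hε'pos).and ((ev_poly' _ (by norm_num) 0 hε'pos).and
      ((ev_poly' _ (by linarith) 0 (by positivity)).and (ev_poly' _ (by linarith) 0 (by positivity))))))))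
    intro Y hY
    rw [div_le_iff₀ hepos] at hY
    linarith
  obtain ⟨Y₀, hY₀⟩ := eventually_atTop.1 hev
  refine ⟨ε', η, Y₀, hε'pos, by linarith, hηpos, ?_⟩
  intro Y hYY d hd T₁ hT1 hT2 L hLne hL κ hκ hsum hPF
  obtain ⟨hY, hYe, g1, g2, g3, g4, g5, g6⟩ := hY₀ Y hYY
  simp only [pow_zero, pow_one, mul_one] at g1 g3 g4 g5 g6
  have hYpos : 0 < Y := by linarith
  have hT0 : 0 < T₁ := lt_of_lt_of_le (Real.exp_pos _) hT1
  have hT1' : 1 ≤ T₁ := le_trans (by rw [Real.one_le_exp_iff]; positivity) hT1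
  set lam : ℝ := Real.log T₁ / Y with hlam
  have hTlam : T₁ = Real.exp (lam * Y) := by
    rw [hlam, div_mul_cancel₀ _ hYpos.ne', Real.exp_log hT0]
  have hlam1 : ε₃ ≤ lam := by
    rw [hTlam] at hT1
    have := Real.exp_le_exp.1 hT1
    exact le_of_mul_le_mul_right this hYpos
  have hlam2 : lam ≤ lam0 + η := by
    rw [hTlam] at hT2
    have := Real.exp_le_exp.1 hT2
    exact le_of_mul_le_mul_right this hYpos
  set kap : ℝ := ∑ i, κ i with hkap
  set al : Fin 10 → ℝ := fun i => (d i : ℝ) / 20 / Y with hal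
  have halY : ∀ i, (d i : ℝ) / 20 = al i * Y := by
    intro i; simp only [hal]; rw [div_mul_cancel₀ _ hYpos.ne']
  have hd40 : ∀ i, (d i : ℝ) ≤ 40 * Y := by
    intro i
    have := DY_le (by linarith) hd i
    linarith
  have hd50 : ∀ i, 1 + (d i : ℝ) ≤ 1 + 50 * Y := by
    intro i
    have := hd40 i
    linarith
  have hal0 : ∀ i, 0 ≤ al i := fun i => by simp only [hal]; positivity
  have hkle : ∀ i, κ i ≤ kap := fun i => Finset.single_le_sum (fun j _ => hκ j) (mem_univ i)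
  have hLc := card_le hT1' hL
  set R : ℝ := max kap (2 * kap + e0 - lam0) with hR
  obtain ⟨k₁, hk₁⟩ := hLne
  by_cases hA : ∃ i : Fin 10, ¬ ((i : ℕ) < 5) ∧ 2 * T₁ ≤ Real.exp ((d i : ℝ) / 20 - 1)
  · obtain ⟨i, hi, hTi⟩ := hA
    have hk := hL k₁ hk₁
    have b1 := H1 (zY Y) (ty i) (d i) k₁ (ty_big hi) (by
      intro h0; rw [h0] at hk; simp at hk; linarith [hk.1]) (by linarith [hk.2])
    have b2 := (hPF k₁ hk₁ i).trans b1
    have b3 : 1 / (k₁ : ℝ) ^ 2 + Real.exp (-((d i : ℝ) / 10)) ≤ 2 * Real.exp (-2 * lam * Y) := by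
      have c1 : 1 / (k₁ : ℝ) ^ 2 ≤ Real.exp (-2 * lam * Y) := by
        have c2 : Real.exp (2 * lam * Y) ≤ (k₁ : ℝ) ^ 2 := by
          rw [← sq_abs]
          calc Real.exp (2 * lam * Y) = T₁ ^ 2 := by
                rw [hTlam, ← Real.exp_nat_mul]; congr 1; push_cast; ring
            _ ≤ |(k₁ : ℝ)| ^ 2 := by gcongr; exact hk.1
        have c3 : Real.exp (-2 * lam * Y) = 1 / Real.exp (2 * lam * Y) := by
          rw [one_div, ← Real.exp_neg]; congr 1; ring
        rw [c3]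
        exact one_div_le_one_div_of_le (Real.exp_pos _) c2
      have c4 : Real.exp (-((d i : ℝ) / 10)) ≤ Real.exp (-2 * lam * Y) := by
        apply Real.exp_le_exp.2
        have c5 : Real.exp (lam * Y) ≤ Real.exp ((d i : ℝ) / 20 - 1) := by
          rw [← hTlam]; linarith
        have c6 := Real.exp_le_exp.1 c5
        linarith
      linarith
    have b4 : Real.exp (-((κ i + ε') * Y)) ≤ (2 * C1 * (1 + 50 * Y)) * Real.exp (-2 * lam * Y) := by
      refine b2.trans ?_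
      calc C1 * (1 + (d i : ℝ)) * (1 / (k₁ : ℝ) ^ 2 + Real.exp (-((d i : ℝ) / 10)))
          ≤ C1 * (1 + 50 * Y) * (2 * Real.exp (-2 * lam * Y)) := by
            have := hd50 i
            gcongr
        _ = _ := by ring
    have b5 := exp_cmp hYpos g1 b4
    have b6 : (L.card : ℝ) ≤ Real.exp ((lam + ε') * Y) := by
      refine hLc.trans ?_
      rw [hTlam, add_mul, Real.exp_add, mul_comm (Real.exp (lam * Y))]
      exact mul_le_mul_of_nonneg_right g4 (Real.exp_pos _).le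
    refine b6.trans ?_
    apply Real.exp_le_exp.2
    apply mul_le_mul_of_nonneg_right _ hYpos.le
    have b7 : kap ≤ R := le_max_left _ _
    have b8 := hkle i
    linarith
  · push Not at hA
    have hS : ∀ i : Fin 10, ¬ ((i : ℕ) < 5) → al i ≤ lam + e ∧ al i - lam / 2 - e ≤ κ i ∧
        al i / 2 - lam / 6 - e ≤ κ i := by
      intro i hi
      have hk := hL k₁ hk₁
      have hkne : k₁ ≠ 0 := by
        intro h0; rw [h0] at hk; simp at hk; linarith [hk.1]
      have c1 := hA i (by omega)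
      have c1a : (d i : ℝ) / 20 - 1 < lam * Y + 1 := by
        by_contra hc
        push Not at hc
        have := Real.exp_le_exp.2 hc
        rw [Real.exp_add, ← hTlam] at this
        have h27 : (2:ℝ) < Real.exp 1 := by have := Real.exp_one_gt_d9; linarith
        nlinarith
      have c1b : al i * Y ≤ lam * Y + 2 := by rw [← halY i]; linarith
      have c2 : al i ≤ lam + e := by
        have : al i * Y ≤ (lam + e) * Y := by linarith
        exact le_of_mul_le_mul_right this hYpos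
      have hkpos : 0 < |(k₁ : ℝ)| := lt_of_lt_of_le hT0 hk.1
      -- second derivative
      have b1 := (hPF k₁ hk₁ i).trans (H2 (zY Y) (ty i) (d i) k₁ (ty_big hi) hkne)
      have e8 : Real.exp 2 ≤ 8 := by
        have h27 : Real.exp 1 < 2.7182818286 := Real.exp_one_lt_d9
        have : Real.exp 2 = Real.exp 1 * Real.exp 1 := by rw [← Real.exp_add]; norm_num
        rw [this]
        have h0 := Real.exp_pos 1
        nlinarith
      have b2 : |(k₁ : ℝ)| ^ (1 / 2 : ℝ) * Real.exp (-((d i : ℝ) / 20)) + |(k₁ : ℝ)| ^ (-(1 / 2) : ℝ) ≤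
          10 * Real.exp ((lam / 2 - al i) * Y) := by
        have c3 : |(k₁ : ℝ)| ^ (1 / 2 : ℝ) ≤ 2 * Real.exp (lam / 2 * Y) := by
          calc |(k₁ : ℝ)| ^ (1 / 2 : ℝ) ≤ (2 * T₁) ^ (1 / 2 : ℝ) := by
                apply Real.rpow_le_rpow hkpos.le hk.2.le (by norm_num)
            _ = 2 ^ (1 / 2 : ℝ) * Real.exp (lam / 2 * Y) := by
                rw [Real.mul_rpow (by norm_num) hT0.le, hTlam, ← Real.exp_mul]; congr 2; ring
            _ ≤ 2 * Real.exp (lam / 2 * Y) := by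
                gcongr
                calc (2:ℝ) ^ (1 / 2 : ℝ) ≤ 2 ^ (1:ℝ) := Real.rpow_le_rpow_of_exponent_le (by norm_num) (by norm_num)
                  _ = 2 := Real.rpow_one 2
        have c4 : |(k₁ : ℝ)| ^ (-(1 / 2) : ℝ) ≤ 8 * Real.exp ((lam / 2 - al i) * Y) := by
          calc |(k₁ : ℝ)| ^ (-(1 / 2) : ℝ) ≤ T₁ ^ (-(1 / 2) : ℝ) := by
                apply Real.rpow_le_rpow_of_nonpos hT0 hk.1 (by norm_num)
            _ = Real.exp (-(lam / 2 * Y)) := by
                rw [hTlam, ← Real.exp_mul]; congr 1; ring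
            _ ≤ Real.exp (2 + (lam / 2 - al i) * Y) := by
                apply Real.exp_le_exp.2; linarith
            _ = Real.exp 2 * Real.exp ((lam / 2 - al i) * Y) := Real.exp_add _ _
            _ ≤ _ := by gcongr
        have c5 : |(k₁ : ℝ)| ^ (1 / 2 : ℝ) * Real.exp (-((d i : ℝ) / 20)) ≤ 2 * Real.exp ((lam / 2 - al i) * Y) := by
          calc |(k₁ : ℝ)| ^ (1 / 2 : ℝ) * Real.exp (-((d i : ℝ) / 20))
              ≤ 2 * Real.exp (lam / 2 * Y) * Real.exp (-((d i : ℝ) / 20)) := by gcongr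
            _ = _ := by rw [mul_assoc, ← Real.exp_add, halY i]; congr 2; ring
        linarith
      have b3 : Real.exp (-((κ i + ε') * Y)) ≤ (10 * C2 * (1 + 50 * Y) ^ 2) * Real.exp ((lam / 2 - al i) * Y) := by
        refine b1.trans ?_
        calc C2 * (1 + (d i : ℝ)) ^ 2 * (|(k₁ : ℝ)| ^ (1 / 2 : ℝ) * Real.exp (-((d i : ℝ) / 20)) +
              |(k₁ : ℝ)| ^ (-(1 / 2) : ℝ))
            ≤ C2 * (1 + 50 * Y) ^ 2 * (10 * Real.exp ((lam / 2 - al i) * Y)) := by
              have := hd50 i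
              gcongr
          _ = _ := by ring
      have b4 := exp_cmp hYpos g2 b3
      refine ⟨c2, by linarith, ?_⟩
      by_cases hc : al i ≤ 2 * lam / 3
      · have b5 := (hPF k₁ hk₁ i).trans (H3 (zY Y) (ty i) (d i) k₁ (ty_big hi) hkne)
        have b6 : |(k₁ : ℝ)| ^ (1 / 6 : ℝ) * Real.exp (-((d i : ℝ) / 40)) + |(k₁ : ℝ)| ^ (-(1 / 6) : ℝ) ≤
            3 * Real.exp ((lam / 6 - al i / 2) * Y) := by
          have c3 : |(k₁ : ℝ)| ^ (1 / 6 : ℝ) ≤ 2 * Real.exp (lam / 6 * Y) := by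
            calc |(k₁ : ℝ)| ^ (1 / 6 : ℝ) ≤ (2 * T₁) ^ (1 / 6 : ℝ) := by
                  apply Real.rpow_le_rpow hkpos.le hk.2.le (by norm_num)
              _ = 2 ^ (1 / 6 : ℝ) * Real.exp (lam / 6 * Y) := by
                  rw [Real.mul_rpow (by norm_num) hT0.le, hTlam, ← Real.exp_mul]; congr 2; ring
              _ ≤ 2 * Real.exp (lam / 6 * Y) := by
                  gcongr
                  calc (2:ℝ) ^ (1 / 6 : ℝ) ≤ 2 ^ (1:ℝ) := Real.rpow_le_rpow_of_exponent_le (by norm_num) (by norm_num)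
                    _ = 2 := Real.rpow_one 2
          have c4 : |(k₁ : ℝ)| ^ (-(1 / 6) : ℝ) ≤ Real.exp ((lam / 6 - al i / 2) * Y) := by
            calc |(k₁ : ℝ)| ^ (-(1 / 6) : ℝ) ≤ T₁ ^ (-(1 / 6) : ℝ) := by
                  apply Real.rpow_le_rpow_of_nonpos hT0 hk.1 (by norm_num)
              _ = Real.exp (-(lam / 6) * Y) := by
                  rw [hTlam, ← Real.exp_mul]; congr 1; ring
              _ ≤ Real.exp ((lam / 6 - al i / 2) * Y) := by
                  apply Real.exp_le_exp.2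
                  apply mul_le_mul_of_nonneg_right _ hYpos.le
                  linarith
          have c5 : |(k₁ : ℝ)| ^ (1 / 6 : ℝ) * Real.exp (-((d i : ℝ) / 40)) ≤
              2 * Real.exp ((lam / 6 - al i / 2) * Y) := by
            calc |(k₁ : ℝ)| ^ (1 / 6 : ℝ) * Real.exp (-((d i : ℝ) / 40))
                ≤ 2 * Real.exp (lam / 6 * Y) * Real.exp (-((d i : ℝ) / 40)) := by gcongr
              _ = _ := by
                have : (d i : ℝ) / 40 = al i * Y / 2 := by rw [← halY i]; ring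
                rw [mul_assoc, ← Real.exp_add, this]; congr 2; ring
          linarith
        have b7 : Real.exp (ε' / 40 * (d i : ℝ)) ≤ Real.exp (ε' * Y) := by
          apply Real.exp_le_exp.2
          have := hd40 i
          nlinarith
        have b8 : Real.exp (-((κ i + ε') * Y)) ≤ (3 * C3) * Real.exp ((ε' + (lam / 6 - al i / 2)) * Y) := by
          refine b5.trans ?_
          calc C3 * Real.exp (ε' / 40 * (d i : ℝ)) * (|(k₁ : ℝ)| ^ (1 / 6 : ℝ) * Real.exp (-((d i : ℝ) / 40)) +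
                |(k₁ : ℝ)| ^ (-(1 / 6) : ℝ))
              ≤ C3 * Real.exp (ε' * Y) * (3 * Real.exp ((lam / 6 - al i / 2) * Y)) := by
                gcongr
            _ = _ := by rw [add_mul ε', Real.exp_add]; ring
        have b9 := exp_cmp hYpos g3 b8
        linarith
      · push Not at hc
        linarith
    have hM : ∀ i : Fin 10, (i : ℕ) < 5 → al i ≤ 0.21 := by
      intro i hi
      have c1 : PF (zY Y) 0 (d i) k₁ ≠ 0 := by
        intro h0
        have c2 := hPF k₁ hk₁ i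
        rw [ty_small hi, h0, norm_zero] at c2
        linarith [Real.exp_pos (-((κ i + ε') * Y))]
      have c3 := moe_short hYpos.le c1
      have c4 := halY i
      have c5 : al i * Y ≤ 0.21 * Y := by rw [← c4]; linarith
      exact le_of_mul_le_mul_right c5 hYpos
    have hsumal : 1 - 1 / Y ≤ ∑ i, al i := by
      have c1 := DY_sum hd
      have c2 : ∑ i, al i = (∑ i, (d i : ℝ)) / 20 / Y := by
        simp only [hal]; rw [Finset.sum_div, Finset.sum_div]
      rw [c2, le_div_iff₀ hYpos]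
      have c3 := (abs_le.1 c1).1
      have : (1 - 1 / Y) * Y = Y - 1 := by field_simp
      rw [this]; linarith
    have hkap0 : 0 < kap := lt_of_lt_of_le hε₀ hsum
    obtain ⟨i, hi1, hi2⟩ := pick hY hκ hal0 hkap hkap0 hsumal
    have hO := hopt ε₀ hε₀ hε₀' (al i) lam (κ i) kap hi1 (hκ i) hi2 hsum (by linarith) (by linarith) (by
      by_cases hi5 : (i : ℕ) < 5
      · left; exact hM i hi5
      · right
        obtain ⟨s1, s2, s3⟩ := hS i hi5
        exact ⟨s2, s3, s1⟩)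
    rcases hO with hO | ⟨m, hm1, hm2, hO⟩
    · have b6 : (L.card : ℝ) ≤ Real.exp ((lam + ε') * Y) := by
        refine hLc.trans ?_
        rw [hTlam, add_mul, Real.exp_add, mul_comm (Real.exp (lam * Y))]
        exact mul_le_mul_of_nonneg_right g4 (Real.exp_pos _).le
      refine b6.trans ?_
      apply Real.exp_le_exp.2
      apply mul_le_mul_of_nonneg_right _ hYpos.le
      linarith
    · set K : ℕ := ⌈2 * T₁⌉₊ with hKdef
      have hK1 : 1 ≤ K := by
        rw [hKdef, Nat.one_le_ceil_iff]; linarith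
      have hK2 : (K : ℝ) ≤ 3 * Real.exp (lam * Y) := by
        have := Nat.ceil_lt_add_one (by linarith : 0 ≤ 2 * T₁)
        rw [← hTlam]; linarith
      have hLK : ∀ k ∈ L, k ∈ FK K ∧ Real.exp (-((κ i + ε') * Y)) ≤ ‖PF (zY Y) (ty i) (d i) k‖ := by
        intro k hk
        refine ⟨?_, hPF k hk i⟩
        have h2 := (hL k hk).2
        have h3 : |(k : ℝ)| < (K : ℝ) := lt_of_lt_of_le h2 (Nat.le_ceil _)
        unfold FK
        rw [mem_Ioo]
        have h4 := abs_lt.1 h3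
        constructor
        · exact_mod_cast h4.1
        · exact_mod_cast h4.2
      have q1 := bndM hYpos hepos hε'pos.le hε'e hm2 (hd40 i) (halY i) (Nat.cast_nonneg K) hK2
        (by linarith) g5 (H4 m hm2 hm1 (zY Y) (ty i) (d i) K _ L hK1 (Real.exp_pos _) hLK)
      have q2 := bndH hYpos hepos hε'pos.le hε'e hm2 (hd40 i) (halY i) (Nat.cast_nonneg K) hK2
        (by linarith) g6 (H5 m hm2 hm1 (zY Y) (ty i) (d i) K _ L hK1 (Real.exp_pos _) hLK)
      rcases le_total (lam - m * al i + 2 * m * κ i) (lam - 2 * m * al i + 6 * m * κ i) with hh | hh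
      · refine q1.trans ?_
        rw [min_eq_left hh] at hO
        apply Real.exp_le_exp.2
        apply mul_le_mul_of_nonneg_right _ hYpos.le
        linarith
      · refine q2.trans ?_
        rw [min_eq_right hh] at hO
        apply Real.exp_le_exp.2
        apply mul_le_mul_of_nonneg_right _ hYpos.le
        linarith

end Pool.Agent.Q278.KS
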