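import Pool.Agent.Q240.KS.Stm1
import Pool.Agent.Q240.KS.Stm2
import Pool.Agent.Q278.KS.Ev

/-!
Project KS (statements of helper240): job MAIN, the assembly of the number theory part.
-/

set_option autoImplicit false

namespace Pool.Agent.Q278.KS

open Finset Filter Topology Pool.Agent.H376R2.MR Pool.Agent.Q240.KS

theorem cg_low {G g : ℕ} {s x : ℝ} (hs : 0 ≤ s) (h : cg G s x = g) (hg : 1 ≤ g) :
    x ≤ Real.exp (-(g * s)) := by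
  unfold cg at h
  by_contra hc
  push Not at hc
  have h1 : (Icc 1 G).filter (fun j : ℕ => x ≤ Real.exp (-(j * s))) ⊆ Icc 1 (g - 1) := by
    intro j hj
    rw [mem_filter, mem_Icc] at hj
    rw [mem_Icc]
    refine ⟨hj.1.1, ?_⟩
    by_contra hjg
    have h2 : g ≤ j := by omega
    have h3 : Real.exp (-((j:ℝ) * s)) ≤ Real.exp (-(g * s)) := by
      apply Real.exp_le_exp.2
      have : (g:ℝ) ≤ j := by exact_mod_cast h2
      nlinarith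
    linarith [hj.2]
  have h2 := Finset.card_le_card h1
  rw [h, Nat.card_Icc] at h2
  omega

theorem cg_high {G g : ℕ} {s x : ℝ} (hs : 0 ≤ s) (h : cg G s x = g) (hg : g < G) :
    Real.exp (-((g + 1) * s)) < x := by
  unfold cg at h
  by_contra hc
  push Not at hc
  have h1 : Icc 1 (g + 1) ⊆ (Icc 1 G).filter (fun j : ℕ => x ≤ Real.exp (-(j * s))) := by
    intro j hj
    rw [mem_Icc] at hj
    rw [mem_filter, mem_Icc]
    refine ⟨⟨hj.1, by omega⟩, hc.trans ?_⟩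
    apply Real.exp_le_exp.2
    have : (j:ℝ) ≤ g + 1 := by exact_mod_cast hj.2
    nlinarith
  have h2 := Finset.card_le_card h1
  rw [h, Nat.card_Icc] at h2
  omega

theorem DY_le' {Y : ℝ} (hY : 1 ≤ Y) {d : Fin 10 → ℕ} (hd : d ∈ DY Y) (i : Fin 10) :
    (d i : ℝ) ≤ 20 * (Y + 1) := by
  unfold DY at hd
  rw [mem_filter, Fintype.mem_piFinset] at hd
  have h1 := hd.1 i
  rw [mem_range] at h1
  have h2 : d i ≤ ⌊20 * (Y + 1)⌋₊ := by omega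
  exact (Nat.le_floor_iff (by positivity)).1 h2

theorem EE_le (hT : S_TRI) {Y s : ℝ} {G : ℕ} {d g : Fin 10 → ℕ} {k : ℤ} (hY : 5 ≤ Y) (hd : d ∈ DY Y)
    (hs : 0 ≤ s) (hk : ∀ i, cg G s ‖PF (zY Y) (ty i) (d i) k‖ = g i) :
    ‖EE (zY Y) d k‖ ≤ (50 * Y) ^ 10 * Real.exp (-((∑ i, (g i : ℝ)) * s)) := by
  unfold EE
  rw [norm_prod]
  calc ∏ i, ‖PF (zY Y) (ty i) (d i) k‖ ≤ ∏ i : Fin 10, (50 * Y * Real.exp (-(g i * s))) := by
        apply Finset.prod_le_prod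
        · intro i _; exact norm_nonneg _
        · intro i _
          by_cases h : 1 ≤ g i
          · have h1 := cg_low hs (hk i) h
            have h2 := Real.exp_pos (-((g i:ℝ) * s))
            nlinarith
          · have h0 : g i = 0 := by omega
            rw [h0]
            have h1 := (hT (zY Y) (ty i) (d i) k).1
            have h2 := DY_le' (by linarith) hd i
            simp only [Nat.cast_zero, zero_mul, neg_zero, Real.exp_zero, mul_one]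
            linarith
    _ = (50 * Y) ^ 10 * Real.exp (-((∑ i, (g i : ℝ)) * s)) := by
        rw [Finset.prod_mul_distrib, Finset.prod_const, Finset.card_univ, Fintype.card_fin, ← Real.exp_sum]
        congr 2
        rw [Finset.sum_neg_distrib, Finset.sum_mul]

theorem mK_bd {K₁ K : ℕ} (h1 : 1 ≤ K₁) (h : K₁ ≤ K) (k : ℤ) : |mK K₁ K k| ≤ 1 := by
  unfold mK
  have a1 : (0:ℝ) < K₁ := by exact_mod_cast h1
  have a2 : (K₁:ℝ) ≤ K := by exact_mod_cast h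
  have a3 : |(k : ℝ)| / K ≤ |(k : ℝ)| / K₁ := by gcongr
  have a4 : max 0 (1 - |(k : ℝ)| / K₁) ≤ max 0 (1 - |(k : ℝ)| / K) := max_le_max le_rfl (by linarith)
  have a5 : 0 ≤ max 0 (1 - |(k : ℝ)| / K₁) := le_max_left _ _
  have a6 : max 0 (1 - |(k : ℝ)| / K) ≤ 1 := max_le (by norm_num) (by
    have : 0 ≤ |(k : ℝ)| / K := by positivity
    linarith)
  rw [abs_le]
  constructor <;> linarith

theorem log_sep {a b M h : ℝ} (ha : 0 < a) (hb : b ≤ M) (h0 : 0 < h) (hh : h ≤ b - a) :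
    h / M ≤ Real.log b - Real.log a := by
  have hb0 : 0 < b := by linarith
  rw [← Real.log_div hb0.ne' ha.ne']
  have h1 := Real.one_sub_inv_le_log_of_pos (div_pos hb0 ha)
  rw [inv_div] at h1
  have h2 : 1 - a / b = (b - a) / b := by field_simp
  rw [h2] at h1
  refine le_trans ?_ h1
  calc h / M ≤ h / b := by gcongr
    _ ≤ (b - a) / b := by gcongr

theorem exp04 : Real.exp (2 / 5) ≤ 1.7 := by
  have h1 : Real.exp (2 / 5) * Real.exp (2 / 5) ≤ Real.exp 1 := by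
    rw [← Real.exp_add]; apply Real.exp_le_exp.2; norm_num
  have h2 := Real.exp_one_lt_d9
  have h3 := Real.exp_pos (2 / 5)
  by_contra hc
  push Not at hc
  nlinarith

theorem card_DY {Y : ℝ} (hY : 21 ≤ Y) : ((DY Y).card : ℝ) ≤ (21 * Y) ^ 10 := by
  have h1 : (DY Y).card ≤ (⌊20 * (Y + 1)⌋₊ + 1) ^ 10 := by
    unfold DY
    refine (Finset.card_filter_le _ _).trans ?_
    rw [Fintype.card_piFinset]
    simp
  have h2 : ((⌊20 * (Y + 1)⌋₊ : ℕ) : ℝ) ≤ 20 * (Y + 1) := Nat.floor_le (by linarith)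
  calc ((DY Y).card : ℝ) ≤ (((⌊20 * (Y + 1)⌋₊ + 1) ^ 10 : ℕ) : ℝ) := by exact_mod_cast h1
    _ = (((⌊20 * (Y + 1)⌋₊ : ℕ) : ℝ) + 1) ^ 10 := by push_cast; ring
    _ ≤ (21 * Y) ^ 10 := by
      gcongr
      linarith

theorem card_FK (K : ℕ) : ((FK K).card : ℝ) ≤ 2 * K := by
  have h : (FK K).card ≤ 2 * K := by
    unfold FK
    rw [Int.card_Ioo]
    omega
  exact_mod_cast h

/-- the sum over a class -/
noncomputable def SS (Y : ℝ) (G : ℕ) (s : ℝ) (K₀ K r : ℕ) (d g : Fin 10 → ℕ) (m : ℤ → ℝ) (u : ℝ) : ℂ :=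
  ∑ k ∈ LS Y G s K₀ K r d g, ((m k : ℝ) : ℂ) * Complex.exp (((k : ℝ) * u : ℝ) * Complex.I) * EE (zY Y) d k

theorem mem_LS {Y : ℝ} {G : ℕ} {s : ℝ} {K₀ K r : ℕ} {d g : Fin 10 → ℕ} {k : ℤ} :
    k ∈ LS Y G s K₀ K r d g ↔ k ∈ FK K ∧ (K₀ : ℤ) ≤ |k| ∧ (2 : ℤ) ^ r ≤ |k| ∧ |k| < (2 : ℤ) ^ (r + 1) ∧
      ∀ i, cg G s ‖PF (zY Y) (ty i) (d i) k‖ = g i := by
  unfold LS; rw [mem_filter]

theorem SS_le {Y : ℝ} {G : ℕ} {s : ℝ} {K₀ K r : ℕ} {d g : Fin 10 → ℕ} {m : ℤ → ℝ} (u : ℝ)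
    (hm : ∀ k, |m k| ≤ 1) : ‖SS Y G s K₀ K r d g m u‖ ≤ ∑ k ∈ LS Y G s K₀ K r d g, ‖EE (zY Y) d k‖ := by
  unfold SS
  refine (norm_sum_le _ _).trans (Finset.sum_le_sum fun k _ => ?_)
  rw [norm_mul, norm_mul, Complex.norm_exp_ofReal_mul_I, mul_one, Complex.norm_real, Real.norm_eq_abs]
  calc |m k| * ‖EE (zY Y) d k‖ ≤ 1 * ‖EE (zY Y) d k‖ := by gcongr; exact hm k
    _ = _ := one_mul _

theorem SS_le' (hT : S_TRI) {Y : ℝ} {G : ℕ} {s : ℝ} {K₀ K r : ℕ} {d g : Fin 10 → ℕ} {m : ℤ → ℝ} (u : ℝ)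
    (hm : ∀ k, |m k| ≤ 1) (hY : 5 ≤ Y) (hd : d ∈ DY Y) (hs : 0 ≤ s) :
    ‖SS Y G s K₀ K r d g m u‖ ≤ (LS Y G s K₀ K r d g).card *
      ((50 * Y) ^ 10 * Real.exp (-((∑ i, (g i : ℝ)) * s))) := by
  refine (SS_le u hm).trans ?_
  rw [← nsmul_eq_mul]
  apply Finset.sum_le_card_nsmul
  intro k hk
  exact EE_le hT hY hd hs (mem_LS.1 hk).2.2.2.2

/-- the large sieve for one class -/
theorem SS_ls (hT : S_TRI) {C : ℝ} (hC1 : 1 ≤ C) (hLSD : ∀ (K : ℕ) (σ v : ℝ) (U : Finset ℝ) (c : ℤ → ℂ), 1 ≤ K →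
    0 < σ → σ ≤ 1 → (∀ u ∈ U, v ≤ u ∧ u ≤ v + 2) → (∀ u ∈ U, ∀ u' ∈ U, u ≠ u' → σ ≤ |u - u'|) →
    ∑ u ∈ U, ‖∑ k ∈ FK K, c k * Complex.exp (((k : ℝ) * u : ℝ) * Complex.I)‖ ^ 2 ≤
    C * (K + 1 / σ) * ∑ k ∈ FK K, ‖c k‖ ^ 2)
    {Y : ℝ} {G : ℕ} {s : ℝ} {K₀ K r : ℕ} {d g : Fin 10 → ℕ} {m : ℤ → ℝ}
    (hm : ∀ k, |m k| ≤ 1) (hY : 5 ≤ Y) (hd : d ∈ DY Y) (hs : 0 ≤ s) {σ v ρ : ℝ} {U : Finset ℝ} (hK : 1 ≤ K)
    (hσ : 0 < σ) (hσ1 : σ ≤ 1) (hv : ∀ u ∈ U, v ≤ u ∧ u ≤ v + 2)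
    (hsep : ∀ u ∈ U, ∀ u' ∈ U, u ≠ u' → σ ≤ |u - u'|) (hρ : 0 ≤ ρ)
    (hU : ∀ u ∈ U, ρ ≤ ‖SS Y G s K₀ K r d g m u‖) :
    (U.card : ℝ) * ρ ^ 2 ≤ C * (K + 1 / σ) * ((LS Y G s K₀ K r d g).card *
      ((50 * Y) ^ 10 * Real.exp (-((∑ i, (g i : ℝ)) * s))) ^ 2) := by
  classical
  set L := LS Y G s K₀ K r d g with hL
  have hLK : L ⊆ FK K := fun k hk => (mem_LS.1 hk).1
  set c : ℤ → ℂ := fun k => if k ∈ L then ((m k : ℝ) : ℂ) * EE (zY Y) d k else 0 with hc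
  have h1 := hLSD K σ v U c hK hσ hσ1 hv hsep
  have h2 : ∀ u : ℝ, ∑ k ∈ FK K, c k * Complex.exp (((k : ℝ) * u : ℝ) * Complex.I) = SS Y G s K₀ K r d g m u := by
    intro u
    unfold SS
    rw [← hL, ← Finset.sum_subset hLK]
    · apply Finset.sum_congr rfl
      intro k hk
      simp only [hc, if_pos hk]
      ring
    · intro k _ hk
      simp only [hc, if_neg hk, zero_mul]
  have h3 : (U.card : ℝ) * ρ ^ 2 ≤ ∑ u ∈ U, ‖∑ k ∈ FK K, c k * Complex.exp (((k : ℝ) * u : ℝ) * Complex.I)‖ ^ 2 := by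
    rw [← nsmul_eq_mul]
    apply Finset.card_nsmul_le_sum
    intro u hu
    rw [h2 u]
    exact pow_le_pow_left₀ hρ (hU u hu) 2
  have h4 : ∑ k ∈ FK K, ‖c k‖ ^ 2 ≤ (L.card : ℝ) *
      ((50 * Y) ^ 10 * Real.exp (-((∑ i, (g i : ℝ)) * s))) ^ 2 := by
    have h5 : ∑ k ∈ FK K, ‖c k‖ ^ 2 = ∑ k ∈ L, ‖c k‖ ^ 2 := by
      symm
      apply Finset.sum_subset hLK
      intro k _ hk
      simp only [hc, if_neg hk, norm_zero]
      norm_num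
    rw [h5, ← nsmul_eq_mul]
    apply Finset.sum_le_card_nsmul
    intro k hk
    have h6 := EE_le hT hY hd hs (mem_LS.1 hk).2.2.2.2
    have h7 : ‖c k‖ ≤ ‖EE (zY Y) d k‖ := by
      simp only [hc, if_pos hk]
      rw [norm_mul, Complex.norm_real, Real.norm_eq_abs]
      calc |m k| * ‖EE (zY Y) d k‖ ≤ 1 * ‖EE (zY Y) d k‖ := by gcongr; exact hm k
        _ = _ := one_mul _
    exact pow_le_pow_left₀ (norm_nonneg _) (h7.trans h6) 2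
  refine h3.trans (h1.trans ?_)
  apply mul_le_mul_of_nonneg_left h4
  have : (0:ℝ) ≤ K := Nat.cast_nonneg K
  have : 0 ≤ 1 / σ := by positivity
  nlinarith

end Pool.Agent.Q278.KS
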